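import Pool.Agent.PCO.StmtsP

/-!
# PCO squad (MP_e54c4c_gt), row ZB3: zooming at a box of codimension one
-/

set_option autoImplicit false

open Matrix Filter Topology

namespace Pool.Agent.PCO.H27

open Pool.Agent.PFS Pool.Agent.PFJ Pool.Agent.PCO

/-- **Row ZB3.** -/
theorem zb3 (wbf : WbfStmt) (bf1 : Bf1Stmt) (bf2 : Bf2Stmt) (bxl : BxlStmt) (dsc : DscStmt) :
    Zb3Stmt := by
  classical
  intro n C Γ d h U v e e' hB hd he he' hee c hc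
  have hCC : CC C Γ := h.toCC
  obtain ⟨hw1, -, -, -, hcs, -, -⟩ := bf2 n C Γ hCC h.maxc U v hB
  have hp : IsPES C Γ ![e, e', v] := hw1 e e' he he' hee
  have elm := Pool.Agent.PFS.H60.elm n C Γ hCC (Fin 3)
  -- zoom
  have hpC : ∀ m : ℕ, ∑ i, c m i • (![e, e', v] : Fin 3 → V n) i ∈ C :=
    fun m => hp.1.pos _ fun i => hc m i
  have hpH : ∀ m : ℕ, ∑ i, c m i • (![e, e', v] : Fin 3 → V n) i ∈ Hull C Γ := fun m =>
    (elm _ hp).2.2.2.1 _ fun i => hc m i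
  obtain ⟨φ, g, s, q, hφ, hg, hs, hq, hlim⟩ := Pool.Agent.PFS.H60.zom n C Γ hCC _ hpC hpH
  obtain ⟨x, hx⟩ : ∃ x : ℕ → Fin 3 → V n,
      x = fun m i => s m • act (g m) (c (φ m) i • (![e, e', v] : Fin 3 → V n) i) := ⟨_, rfl⟩
  have hxv : ∀ m i, x m i = s m • act (g m) (c (φ m) i • (![e, e', v] : Fin 3 → V n) i) :=
    fun m i => by rw [hx]
  have hx0 : ∀ m, x m 0 = s m • act (g m) (c (φ m) 0 • e) := fun m => by rw [hxv]; rfl
  have hx1 : ∀ m, x m 1 = s m • act (g m) (c (φ m) 1 • e') := fun m => by rw [hxv]; rfl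
  have hx2 : ∀ m, x m 2 = s m • act (g m) (c (φ m) 2 • v) := fun m => by rw [hxv]; rfl
  have hxP : ∀ m, IsPES C Γ (x m) := by
    intro m
    have b1 := (elm _ hp).1 (c (φ m)) (hc (φ m))
    have b2 := (elm _ b1).2.1 (g m) (hg m) (s m) (hs m)
    have he : x m = fun i => s m • act (g m) (c (φ m) i • (![e, e', v] : Fin 3 → V n) i) := by
      funext i; exact hxv m i
    rw [he]; exact b2
  have hxs : Tendsto (fun m => ∑ i, x m i) atTop (𝓝 q) := by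
    refine hlim.congr fun m => ?_
    simp only [hxv]
    rw [CC.act_sum, Finset.smul_sum]
  obtain ⟨φ₂, W, hφ₂, hxW, hWs, hWP⟩ :=
    Pool.Agent.PFS.H37.lpsF n C Γ hCC (Fin 3) (by decide) x q hxP hq hxs
  -- the boxes
  have hBm : ∀ m, Bx C Γ (img (g m) U) (x m 2) := by
    intro m
    have b1 := hcs (c (φ m) 2) (hc (φ m) 2)
    obtain ⟨-, -, -, -, -, hgs, -⟩ := bf2 n C Γ hCC h.maxc U _ b1
    rw [hx2]
    exact (hgs (g m) (hg m) (s m) (hs m)).1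
  have hmem0 : ∀ m, x m 0 ∈ img (g m) U := by
    intro m
    rw [hx0]
    exact Submodule.smul_mem _ _ (mem_img.2 ⟨_, U.smul_mem _ he.1, rfl⟩)
  have hmem1 : ∀ m, x m 1 ∈ img (g m) U := by
    intro m
    rw [hx1]
    exact Submodule.smul_mem _ _ (mem_img.2 ⟨_, U.smul_mem _ he'.1, rfl⟩)
  have hdm : ∀ m, Module.finrank ℝ (img (g m) U) = d := fun m => by
    rw [(wbf n).2.2.2.2 (g m) U]; exact hd
  have hsum : Tendsto (fun m => (x (φ₂ m) 0 + x (φ₂ m) 1) + x (φ₂ m) 2) atTop (𝓝 q) := by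
    have h1 := hxs.comp hφ₂.tendsto_atTop
    refine h1.congr fun m => ?_
    show ∑ i, x (φ₂ m) i = _
    rw [Fin.sum_univ_three]
  obtain ⟨φ₃, U', v', f', hφ₃, hB', -, -, -, hv', hL, -, hfin⟩ :=
    bxl n C Γ hCC h.maxc (fun m => img (g (φ₂ m)) U) (fun m => x (φ₂ m) 2)
      (fun m => x (φ₂ m) 0 + x (φ₂ m) 1) q (fun m => hBm _)
      (fun m => Submodule.add_mem _ (hmem0 _) (hmem1 _)) hq hsum
  have hxW' : ∀ i, Tendsto (fun m => x (φ₂ (φ₃ m)) i) atTop (𝓝 (W i)) := fun i =>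
    (hxW i).comp hφ₃.tendsto_atTop
  have hvW : v' = W 2 := tendsto_nhds_unique hv' (hxW' 2)
  subst hvW
  have hd' : Module.finrank ℝ U' = d := by
    rw [← hfin 0]; exact hdm _
  have hW0 : W 0 ∈ U' := hL.2 id (fun m => x (φ₂ (φ₃ m)) 0) (W 0) strictMono_id
    (fun m => hmem0 _) (hxW' 0)
  have hW1 : W 1 ∈ U' := hL.2 id (fun m => x (φ₂ (φ₃ m)) 1) (W 1) strictMono_id
    (fun m => hmem1 _) (hxW' 1)
  obtain ⟨-, -, -, -, -, hCu, -, -, -⟩ := bf1 n C Γ hCC h.maxc U' (W 2) hB'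
  have hn0 : ¬ Unt C U' (W 0) := by
    intro hu
    have h1 : W 0 + (1 : ℝ) • W 2 ∈ C := (hCu (W 0) hW0 1).2 ⟨hu, one_pos⟩
    have h2 := hWP.1.bd ![1, 0, 1] (by intro i; fin_cases i <;> simp) ⟨1, rfl⟩
    apply h2
    rw [Fin.sum_univ_three]
    simpa using h1
  have hn1 : ¬ Unt C U' (W 1) := by
    intro hu
    have h1 : W 1 + (1 : ℝ) • W 2 ∈ C := (hCu (W 1) hW1 1).2 ⟨hu, one_pos⟩
    have h2 := hWP.1.bd ![0, 1, 1] (by intro i; fin_cases i <;> simp) ⟨0, rfl⟩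
    apply h2
    rw [Fin.sum_univ_three]
    simpa using h1
  have hul := hCC.hul
  have hcl : ∀ i, W i ∈ closure C := fun i => hul.lamCl _ (hWP.2 i)
  have hne : ∀ i, W i ≠ 0 := fun i => hul.lamNe _ (hWP.2 i)
  have hind : Ind2 (W 0) (W 1) := by
    intro a b hab
    have hl := Pool.Agent.PFS.H60.lin n C hCC.toPCone (Fin 3) W hWP.1
    have h1 := Fintype.linearIndependent_iff.1 hl ![a, b, 0] (by
      rw [Fin.sum_univ_three]
      simpa using hab)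
    exact ⟨h1 0, h1 1⟩
  obtain ⟨N, hN⟩ := eventually_atTop.1
    (dsc n C Γ d h U' (W 2) (fun m => img (g (φ₂ (φ₃ m))) U) (fun m => x (φ₂ (φ₃ m)) 2)
      hB' hd' (fun m => hBm _) (fun m => hdm _) hL (hxW' 2))
  refine ⟨fun m => φ (φ₂ (φ₃ (m + N))), fun m => g (φ₂ (φ₃ (m + N))),
    fun m => s (φ₂ (φ₃ (m + N))), U', W, ?_, fun m => hg _, fun m => hs _, hB', hd', hWP,
    ⟨hW0, hcl 0, hne 0, hn0⟩, ⟨hW1, hcl 1, hne 1, hn1⟩, hind, ?_, ?_, ?_⟩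
  · intro a b hab
    exact hφ (hφ₂ (hφ₃ (by omega)))
  · intro i
    have h1 : Tendsto (fun m => x (φ₂ (φ₃ (m + N))) i) atTop (𝓝 (W i)) :=
      (tendsto_add_atTop_iff_nat (f := fun m => x (φ₂ (φ₃ m)) i) N).2 (hxW' i)
    refine h1.congr fun m => ?_
    rw [hxv]
  · intro m
    exact (hN (m + N) (by omega)).1
  · intro m
    obtain ⟨-, κ, hκ, hκe⟩ := hN (m + N) (by omega)
    have hsp := hs (φ₂ (φ₃ (m + N)))
    have hcp := hc (φ (φ₂ (φ₃ (m + N)))) 2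
    refine ⟨(s (φ₂ (φ₃ (m + N))) * c (φ (φ₂ (φ₃ (m + N)))) 2)⁻¹ * κ, by positivity, ?_⟩
    have h2 : (s (φ₂ (φ₃ (m + N))) * c (φ (φ₂ (φ₃ (m + N)))) 2) • act (g (φ₂ (φ₃ (m + N)))) v =
        κ • W 2 := by
      rw [← hκe]
      show _ = x (φ₂ (φ₃ (m + N))) 2
      rw [hx2, CC.act_smul, smul_smul]
    rw [mul_smul, ← h2, smul_smul, inv_mul_cancel₀ (by positivity), one_smul]

end Pool.Agent.PCO.H27
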